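import Mathlib

/-!
# Six (or more) two-sided segment mirrors that leave no shadow

For every `n ≥ 6` we exhibit `n` pairwise disjoint closed segment mirrors in the Euclidean plane
and a light source in general position from which almost every point of the plane is illuminated.
-/

set_option autoImplicit false

open MeasureTheory

namespace Pool.Agent.Results.MP_74d6fb_co.SixMirrors

noncomputable section

/-- The Euclidean plane. -/
abbrev Plane := EuclideanSpace ℝ (Fin 2)

/-- A mirror configuration: `n` pairwise disjoint closed segments `[a i, b i]`, each of positive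
length. -/
structure MirrorConfig (n : ℕ) where
  /-- first endpoint of the `i`-th mirror -/
  a : Fin n → Plane
  /-- second endpoint of the `i`-th mirror -/
  b : Fin n → Plane
  /-- each mirror has positive length -/
  pos : ∀ i, a i ≠ b i
  /-- the mirrors are pairwise disjoint -/
  disj : ∀ i j, i ≠ j → Disjoint (segment ℝ (a i) (b i)) (segment ℝ (a j) (b j))

/-- The union of all mirrors of the configuration. -/
def MirrorConfig.mirrors {n : ℕ} (M : MirrorConfig n) : Set Plane :=
  ⋃ i, segment ℝ (M.a i) (M.b i)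

/-- `LightRay M p x v`: some light ray emitted at `p` leaves, after finitely many reflections
(possibly none), the point `x` in the direction `v`.  The source emits in every direction
(`emit`).  A ray leaving `x` in direction `v` that meets the mirrors for the first time at a
point `x + t • v` which is an interior point of the mirror `[a i, b i]` is reflected there by the
usual law: its new direction is the mirror image of `v` in the line spanned by `b i - a i`
(`reflect`).  There is no rule at the endpoints: a ray meeting an endpoint is stopped. -/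
inductive LightRay {n : ℕ} (M : MirrorConfig n) (p : Plane) : Plane → Plane → Prop
  | emit (v : Plane) (hv : v ≠ 0) : LightRay M p p v
  | reflect (x v : Plane) (i : Fin n) (t : ℝ) (hray : LightRay M p x v) (ht : 0 < t)
      (hfree : ∀ s, 0 < s → s < t → x + s • v ∉ M.mirrors)
      (hhit : x + t • v ∈ openSegment ℝ (M.a i) (M.b i)) :
      LightRay M p (x + t • v) ((Submodule.span ℝ {M.b i - M.a i}).reflection v)

/-- `q` is illuminated from `p`: it lies on the path of some ray from `p`, after finitely many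
reflections (possibly none). -/
def Illuminated {n : ℕ} (M : MirrorConfig n) (p q : Plane) : Prop :=
  ∃ (x v : Plane) (t : ℝ), LightRay M p x v ∧ 0 ≤ t ∧
    (∀ s, 0 < s → s < t → x + s • v ∉ M.mirrors) ∧ q = x + t • v

/-! ### Coordinates -/

/-- point with coordinates `(x, √3 y)` -/
def P (x y : ℝ) : Plane := !₂[x, √3 * y]

lemma s3sq : √3 * √3 = (3:ℝ) := Real.mul_self_sqrt (by norm_num)
lemma s3pos : (0:ℝ) < √3 := Real.sqrt_pos.mpr (by norm_num)

@[simp] lemma P_zero (x y : ℝ) : (P x y) 0 = x := rfl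
@[simp] lemma P_one (x y : ℝ) : (P x y) 1 = √3 * y := rfl
@[simp] lemma P_one_div (x y : ℝ) : (P x y) 1 / √3 = y := by
  have := s3pos
  rw [P_one]; field_simp

lemma P_add (x y x' y' : ℝ) : P x y + P x' y' = P (x + x') (y + y') := by
  ext i; fin_cases i <;> simp [P]; ring

lemma P_smul (c x y : ℝ) : c • P x y = P (c * x) (c * y) := by
  ext i; fin_cases i <;> simp [P]; ring

lemma P_sub (x y x' y' : ℝ) : P x y - P x' y' = P (x - x') (y - y') := by
  ext i; fin_cases i <;> simp [P]; ring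

lemma P_neg (x y : ℝ) : - P x y = P (- x) (- y) := by
  ext i; fin_cases i <;> simp [P]

lemma eq_P (z : Plane) : z = P (z 0) (z 1 / √3) := by
  have := s3pos
  ext i; fin_cases i <;> simp [P]; field_simp

lemma P_inj {x y x' y' : ℝ} (h : P x y = P x' y') : x = x' ∧ y = y' := by
  have h0 : (P x y) 0 = (P x' y') 0 := by rw [h]
  have h1 : (P x y) 1 / √3 = (P x' y') 1 / √3 := by rw [h]
  rw [P_zero, P_zero] at h0
  rw [P_one_div, P_one_div] at h1
  exact ⟨h0, h1⟩

lemma P_eq_zero {x y : ℝ} (h : P x y = 0) : x = 0 ∧ y = 0 := by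
  have h0 : (0 : Plane) = P 0 0 := by ext i; fin_cases i <;> simp [P]
  exact P_inj (h.trans h0)

lemma P_inner (x y x' y' : ℝ) : inner ℝ (P x y) (P x' y') = x * x' + 3 * (y * y') := by
  simp [P, PiLp.inner_apply, Fin.sum_univ_two]
  linear_combination (y * y') * s3sq

lemma P_norm_sq (x y : ℝ) : ‖P x y‖ ^ 2 = x ^ 2 + 3 * y ^ 2 := by
  rw [← real_inner_self_eq_norm_sq, P_inner]; ring

/-! ### Rotation by 60 degrees -/

/-- rotation by 60 degrees about the origin -/
def rot : Plane ≃ₗᵢ[ℝ] Plane where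
  toFun z := P ((z 0 - 3 * (z 1 / √3)) / 2) ((z 0 + z 1 / √3) / 2)
  invFun z := P ((z 0 + 3 * (z 1 / √3)) / 2) ((- z 0 + z 1 / √3) / 2)
  map_add' z w := by
    rw [P_add]; congr 1 <;> simp <;> ring
  map_smul' c z := by
    simp only [RingHom.id_apply]
    rw [P_smul]; congr 1 <;> simp <;> ring
  left_inv z := by
    conv_rhs => rw [eq_P z]
    simp only [P_zero, P_one_div]
    congr 1 <;> ring
  right_inv z := by
    conv_rhs => rw [eq_P z]
    simp only [P_zero, P_one_div]
    congr 1 <;> ring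
  norm_map' z := by
    have h1 : ‖z‖ ^ 2 = (z 0) ^ 2 + 3 * (z 1 / √3) ^ 2 := by
      conv_lhs => rw [eq_P z]
      rw [P_norm_sq]
    have h2 : ‖P ((z 0 - 3 * (z 1 / √3)) / 2) ((z 0 + z 1 / √3) / 2)‖ ^ 2 = ‖z‖ ^ 2 := by
      rw [P_norm_sq, h1]; ring
    exact (sq_eq_sq₀ (norm_nonneg _) (norm_nonneg _)).1 h2

lemma rot_P (x y : ℝ) : rot (P x y) = P ((x - 3 * y) / 2) ((x + y) / 2) := by
  show P (((P x y) 0 - 3 * ((P x y) 1 / √3)) / 2) (((P x y) 0 + (P x y) 1 / √3) / 2) = _
  simp only [P_zero, P_one_div]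

/-! ### The six base mirrors -/

/-- inner endpoints of the six base mirrors -/
def A : Fin 6 → Plane :=
  ![P 1 (1/5), P (1/5) (3/5), P (-4/5) (2/5), P (-1) (-1/5), P (-1/5) (-3/5), P (4/5) (-2/5)]

/-- outer endpoints of the six base mirrors -/
def B : Fin 6 → Plane :=
  ![P 1 3, P (-4) 2, P (-5) (-1), P (-1) (-3), P 4 (-2), P 5 1]

lemma rot_A (i : Fin 6) : rot (A i) = A (i + 1) := by
  fin_cases i <;> simp [A, rot_P] <;> congr 1 <;> norm_num

lemma rot_B (i : Fin 6) : rot (B i) = B (i + 1) := by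
  fin_cases i <;> simp [B, rot_P] <;> congr 1 <;> norm_num

/-- The six half-lines (in coordinates) that carry all mirrors. -/
def HLc (x y : ℝ) : Prop :=
  (x = 1 ∧ 1/5 ≤ y) ∨ (x + 3 * y = 2 ∧ x ≤ 1/5) ∨ (x - 3 * y = -2 ∧ x ≤ -4/5) ∨
  (x = -1 ∧ y ≤ -1/5) ∨ (x + 3 * y = -2 ∧ -1/5 ≤ x) ∨ (x - 3 * y = 2 ∧ 4/5 ≤ x)

/-- The union of six half-lines that carries all mirrors. -/
def HL : Set Plane := {z | HLc (z 0) (z 1 / √3)}

lemma P_mem_HL (x y : ℝ) : P x y ∈ HL ↔ HLc x y := by
  show HLc ((P x y) 0) ((P x y) 1 / √3) ↔ _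
  rw [P_zero, P_one_div]

lemma HLc_rot {x y : ℝ} (h : HLc ((x - 3 * y) / 2) ((x + y) / 2)) : HLc x y := by
  unfold HLc at *
  rcases h with h | h | h | h | h | h
  · right; right; right; right; right; constructor <;> linarith [h.1, h.2]
  · left; constructor <;> linarith [h.1, h.2]
  · right; left; constructor <;> linarith [h.1, h.2]
  · right; right; left; constructor <;> linarith [h.1, h.2]
  · right; right; right; left; constructor <;> linarith [h.1, h.2]
  · right; right; right; right; left; constructor <;> linarith [h.1, h.2]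

lemma HL_rot {z : Plane} (h : rot z ∈ HL) : z ∈ HL := by
  rw [eq_P z] at h ⊢
  rw [rot_P, P_mem_HL] at h
  rw [P_mem_HL]
  exact HLc_rot h

/-- One-reflection visibility in the presence of all six half-lines. -/
def Lit (q : Plane) : Prop :=
  (q ≠ 0 ∧ ∀ s : ℝ, 0 < s → s < 1 → s • q ∉ HL) ∨
  (∃ (i : Fin 6) (Y : Plane) (t : ℝ), Y ∈ openSegment ℝ (A i) (B i) ∧ Y ≠ 0 ∧ 0 ≤ t ∧
    (∀ s : ℝ, 0 < s → s < 1 → s • Y ∉ HL) ∧
    (∀ s : ℝ, 0 < s → s < t →
      Y + s • (Submodule.span ℝ {B i - A i}).reflection Y ∉ HL) ∧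
    q = Y + t • (Submodule.span ℝ {B i - A i}).reflection Y)

lemma reflection_rot (w v : Plane) :
    (Submodule.span ℝ {rot w}).reflection (rot v) =
      rot ((Submodule.span ℝ {w}).reflection v) := by
  have h := Submodule.reflection_map_apply rot (Submodule.span ℝ {w}) (rot v)
  rw [LinearIsometryEquiv.symm_apply_apply] at h
  rw [← h]
  congr 2
  simp [Submodule.map_span]

lemma Lit_rot {q : Plane} (h : Lit q) : Lit (rot q) := by
  rcases h with ⟨h0, h⟩ | ⟨i, Y, t, hY, hY0, ht, h1, h2, h3⟩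
  · left
    refine ⟨by simpa using h0, fun s hs hs' hm => h s hs hs' ?_⟩
    rw [← map_smul] at hm
    exact HL_rot hm
  · right
    have hr : (Submodule.span ℝ {B (i + 1) - A (i + 1)}).reflection (rot Y) =
        rot ((Submodule.span ℝ {B i - A i}).reflection Y) := by
      rw [← rot_A, ← rot_B, ← map_sub, reflection_rot]
    refine ⟨i + 1, rot Y, t, ?_, by simpa using hY0, ht, ?_, ?_, ?_⟩
    · rw [← rot_A, ← rot_B]
      have : (rot : Plane → Plane) '' openSegment ℝ (A i) (B i) =
          openSegment ℝ (rot (A i)) (rot (B i)) := by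
        exact image_openSegment ℝ (rot.toLinearEquiv.toLinearMap.toAffineMap) (A i) (B i)
      rw [← this]
      exact ⟨Y, hY, rfl⟩
    · intro s hs hs' hm
      rw [← map_smul] at hm
      exact h1 s hs hs' (HL_rot hm)
    · intro s hs hs' hm
      rw [hr, ← map_smul, ← map_add] at hm
      exact h2 s hs hs' (HL_rot hm)
    · rw [hr, h3, map_add, map_smul]

/-! ### The reflection formulas for mirrors 4 and 5 -/

lemma refl_P (a b c d x y : ℝ) :
    (Submodule.span ℝ {P c d - P a b}).reflection (P x y) =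
      P (2 * (((c - a) * x + 3 * ((d - b) * y)) / ((c - a) ^ 2 + 3 * (d - b) ^ 2)) * (c - a) - x)
        (2 * (((c - a) * x + 3 * ((d - b) * y)) / ((c - a) ^ 2 + 3 * (d - b) ^ 2)) * (d - b) - y)
      := by
  rw [Submodule.reflection_singleton_apply, P_sub, P_inner]
  have h2 : ((‖P (c - a) (d - b)‖ : ℝ) ^ 2) = (c - a) ^ 2 + 3 * (d - b) ^ 2 := P_norm_sq _ _
  have h3 : (((‖P (c - a) (d - b)‖ : ℝ) : ℝ) ^ 2) = (c - a) ^ 2 + 3 * (d - b) ^ 2 := h2
  simp only [RCLike.ofReal_real_eq_id, id_eq]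
  rw [h3, P_smul, ← Nat.cast_smul_eq_nsmul ℝ, P_smul, P_sub]
  push_cast
  congr 1 <;> ring

lemma refl5 (X : ℝ) :
    (Submodule.span ℝ {B 5 - A 5}).reflection (P X ((X - 2) / 3)) = P (X - 1) ((X + 1) / 3) := by
  have hA : A 5 = P (4/5) (-2/5) := rfl
  have hB : B 5 = P 5 1 := rfl
  rw [hA, hB, refl_P]
  congr 1 <;> ring

lemma refl4 (X : ℝ) :
    (Submodule.span ℝ {B 4 - A 4}).reflection (P X ((-2 - X) / 3)) =
      P (X + 1) ((1 - X) / 3) := by
  have hA : A 4 = P (-1/5) (-3/5) := rfl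
  have hB : B 4 = P 4 (-2) := rfl
  rw [hA, hB, refl_P]
  congr 1 <;> ring

lemma mem_openSegment_P {a b c d x y l : ℝ} (h0 : 0 < l) (h1 : l < 1)
    (hx : x = (1 - l) * a + l * c) (hy : y = (1 - l) * b + l * d) :
    P x y ∈ openSegment ℝ (P a b) (P c d) := by
  refine ⟨1 - l, l, by linarith, h0, by ring, ?_⟩
  rw [P_smul, P_smul, P_add, hx, hy]

/-! ### The sector lemma -/

lemma lit_direct {x y : ℝ} (h1 : x < 5 * y) (h2 : y < 3 * x) (h3 : x < 1) : Lit (P x y) := by
  left
  have hx : 0 < x := by linarith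
  have hy : 0 < y := by linarith
  refine ⟨fun h => by have := (P_eq_zero h).1; linarith, ?_⟩
  intro s hs hs' hm
  rw [P_smul, P_mem_HL] at hm
  have u0 : 0 < s * x := mul_pos hs hx
  have w0 : 0 < s * y := mul_pos hs hy
  have e1 : s * x < 5 * (s * y) := by nlinarith
  have e2 : s * y < 3 * (s * x) := by nlinarith
  have e3 : s * x < 1 := by nlinarith
  rcases hm with h | h | h | h | h | h <;> linarith [h.1, h.2]

/-- points seen via the mirror number 5 -/
lemma lit_via5 {x y : ℝ} (h1 : 1 < x) (h2 : x - 3 * y < 2) (h3 : x < 3 + 2 * y) :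
    Lit (P x y) := by
  right
  -- the virtual image is `(1,-1)`; the parameter of the reflection point
  have hD : 0 < 4 + 3 * y - x := by linarith
  obtain ⟨r, hr⟩ : ∃ r : ℝ, r = 2 / (4 + 3 * y - x) := ⟨_, rfl⟩
  have hrD : r * (4 + 3 * y - x) = 2 := by rw [hr]; field_simp
  have hr0 : 0 < r := by rw [hr]; positivity
  have hr1 : r < 1 := by
    by_contra hc
    push Not at hc
    nlinarith
  obtain ⟨X, hX⟩ : ∃ X : ℝ, X = 1 + r * (x - 1) := ⟨_, rfl⟩
  have hY : -1 + r * (y + 1) = (X - 2) / 3 := by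
    rw [hX]; linarith
  have hX1 : 1 < X := by rw [hX]; nlinarith
  have hX2 : X < 5 := by
    rw [hX]; nlinarith
  have ht : 0 < 1 / r - 1 := by
    rw [sub_pos, lt_div_iff₀ hr0]; linarith
  refine ⟨5, P X ((X - 2) / 3), 1 / r - 1, ?_, ?_, ht.le, ?_, ?_, ?_⟩
  · have hA : A 5 = P (4/5) (-2/5) := rfl
    have hB : B 5 = P 5 1 := rfl
    rw [hA, hB]
    exact mem_openSegment_P (l := (X - 4/5) / (21/5)) (by linarith [hX1]) (by linarith [hX2])
      (by ring) (by ring)
  · intro h
    have := (P_eq_zero h).1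
    linarith
  · intro s hs hs' hm
    rw [P_smul, P_mem_HL] at hm
    have e1 : s < s * X := by nlinarith
    have e2 : s * X < 5 * s := by nlinarith
    have e3 : s * ((X - 2) / 3) = (s * X - 2 * s) / 3 := by ring
    rw [e3] at hm
    rcases hm with h | h | h | h | h | h <;> linarith [h.1, h.2]
  · intro s hs hs' hm
    rw [refl5, P_smul, P_add, P_mem_HL] at hm
    -- the point is `(1,-1) + ρ (x-1, y+1)` with `ρ = (1+s) r`
    have e1 : X + s * (X - 1) = 1 + (1 + s) * (X - 1) := by ring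
    have e2 : (X - 2) / 3 + s * ((X + 1) / 3) = -1 + (1 + s) * ((X + 1) / 3) := by ring
    rw [e1, e2] at hm
    have u0 : 0 < (1 + s) * (X - 1) := by nlinarith
    have w0 : 0 < (1 + s) * ((X + 1) / 3) := by nlinarith
    have e3 : 3 * ((1 + s) * ((X + 1) / 3)) - (1 + s) * (X - 1) = 2 * (1 + s) := by ring
    rcases hm with h | h | h | h | h | h <;> linarith [h.1, h.2]
  · rw [refl5, P_smul, P_add]
    have hr' : (1 / r) * r = 1 := by field_simp
    congr 1
    · have : X + (1 / r - 1) * (X - 1) = 1 + (1 / r) * (X - 1) := by ring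
      rw [this, hX]
      have : 1 + 1 / r * (1 + r * (x - 1) - 1) = 1 + ((1 / r) * r) * (x - 1) := by ring
      rw [this, hr']; ring
    · have h5 : (X + 1) / 3 = (X - 2) / 3 + 1 := by ring
      rw [h5, ← hY]
      have : -1 + r * (y + 1) + (1 / r - 1) * (-1 + r * (y + 1) + 1) =
        -1 + ((1 / r) * r) * (y + 1) := by ring
      rw [this, hr']; ring

/-- points seen via the mirror number 4 -/
lemma lit_via4 {x y : ℝ} (h0 : 0 < y) (h1 : 2 * y + 1 < x) (h2 : x - 3 * y ≠ 2) :
    Lit (P x y) := by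
  right
  -- the virtual image is `(-1,-1)`
  have hD : 0 < 4 + 3 * y + x := by linarith
  obtain ⟨r, hr⟩ : ∃ r : ℝ, r = 2 / (4 + 3 * y + x) := ⟨_, rfl⟩
  have hrD : r * (4 + 3 * y + x) = 2 := by rw [hr]; field_simp
  have hr0 : 0 < r := by rw [hr]; positivity
  have hr1 : r < 1 := by
    by_contra hc
    push Not at hc
    nlinarith
  obtain ⟨X, hX⟩ : ∃ X : ℝ, X = -1 + r * (x + 1) := ⟨_, rfl⟩
  have hY : -1 + r * (y + 1) = (-2 - X) / 3 := by
    rw [hX]; linarith
  have hX1 : -1/5 < X := by rw [hX]; nlinarith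
  have hX2 : X < 4 := by
    rw [hX]; nlinarith
  have ht : 0 < 1 / r - 1 := by
    rw [sub_pos, lt_div_iff₀ hr0]; linarith
  have hne : (X + 1) ≠ 3 * ((1 - X) / 3) := by
    intro h
    have h6 : (X + 1) = r * (x + 1) := by rw [hX]; ring
    have h7 : (1 - X) / 3 = r * (y + 1) := by linarith
    rw [h6, h7] at h
    apply h2
    have h8 : r * (x + 1 - 3 * (y + 1)) = 0 := by linarith
    rcases mul_eq_zero.1 h8 with h9 | h9 <;> linarith
  refine ⟨4, P X ((-2 - X) / 3), 1 / r - 1, ?_, ?_, ht.le, ?_, ?_, ?_⟩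
  · have hA : A 4 = P (-1/5) (-3/5) := rfl
    have hB : B 4 = P 4 (-2) := rfl
    rw [hA, hB]
    exact mem_openSegment_P (l := (X + 1/5) / (21/5)) (by linarith [hX1]) (by linarith [hX2])
      (by ring) (by ring)
  · intro h
    have := (P_eq_zero h).1
    have := (P_eq_zero h).2
    linarith
  · intro s hs hs' hm
    rw [P_smul, P_mem_HL] at hm
    have e1 : -1/5 * s < s * X := by nlinarith
    have e2 : s * X < 4 * s := by nlinarith
    have e3 : s * ((-2 - X) / 3) = (-2 * s - s * X) / 3 := by ring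
    rw [e3] at hm
    rcases hm with h | h | h | h | h | h <;> linarith [h.1, h.2]
  · intro s hs hs' hm
    rw [refl4, P_smul, P_add, P_mem_HL] at hm
    have e1 : X + s * (X + 1) = -1 + (1 + s) * (X + 1) := by ring
    have e2 : (-2 - X) / 3 + s * ((1 - X) / 3) = -1 + (1 + s) * ((1 - X) / 3) := by ring
    rw [e1, e2] at hm
    have h6 : (X + 1) = r * (x + 1) := by rw [hX]; ring
    have h7 : (1 - X) / 3 = r * (y + 1) := by linarith
    have u1 : 2 * ((1 - X) / 3) < X + 1 := by rw [h6, h7]; nlinarith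
    have u2 : 0 < (1 - X) / 3 := by rw [h7]; positivity
    have u3 : 2 * ((1 + s) * ((1 - X) / 3)) < (1 + s) * (X + 1) := by nlinarith
    have u4 : 0 < (1 + s) * ((1 - X) / 3) := by positivity
    have e3 : (1 + s) * (X + 1) + 3 * ((1 + s) * ((1 - X) / 3)) = 2 * (1 + s) := by ring
    have e4 : (1 + s) * (X + 1) ≠ 3 * ((1 + s) * ((1 - X) / 3)) := by
      intro h
      apply hne
      have : (1 + s) * ((X + 1) - 3 * ((1 - X) / 3)) = 0 := by linarith
      rcases mul_eq_zero.1 this with h9 | h9 <;> linarith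
    rcases hm with h | h | h | h | h | h
    · linarith [h.1, h.2]
    · linarith [h.1, h.2]
    · linarith [h.1, h.2]
    · linarith [h.1, h.2]
    · linarith [h.1, h.2]
    · exact e4 (by linarith [h.1])
  · rw [refl4, P_smul, P_add]
    have hr' : (1 / r) * r = 1 := by field_simp
    congr 1
    · have : X + (1 / r - 1) * (X + 1) = -1 + (1 / r) * (X + 1) := by ring
      rw [this, hX]
      have : -1 + 1 / r * (-1 + r * (x + 1) + 1) = -1 + ((1 / r) * r) * (x + 1) := by ring
      rw [this, hr']; ring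
    · have h5 : (1 - X) / 3 = (-2 - X) / 3 + 1 := by ring
      rw [h5, ← hY]
      have : -1 + r * (y + 1) + (1 / r - 1) * (-1 + r * (y + 1) + 1) =
        -1 + ((1 / r) * r) * (y + 1) := by ring
      rw [this, hr']; ring

/-- Every point of the open sector number 0, off two lines, is lit. -/
lemma lit_sector {x y : ℝ} (h1 : x < 5 * y) (h2 : y < 3 * x) (h3 : x ≠ 1)
    (h4 : x - 3 * y ≠ 2) : Lit (P x y) := by
  have hx : 0 < x := by linarith
  have hy : 0 < y := by linarith
  rcases lt_or_gt_of_ne h3 with h | h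
  · exact lit_direct h1 h2 h
  · rcases lt_or_ge x (3 + 2 * y) with h5 | h5
    · rcases lt_or_gt_of_ne h4 with h6 | h6
      · exact lit_via5 h h6 h5
      · exact lit_via4 hy (by linarith) h4
    · exact lit_via4 hy (by linarith) h4

/-! ### Rotating into sector 0 -/

lemma rot_six (q : Plane) : rot (rot (rot (rot (rot (rot q))))) = q := by
  rw [eq_P q]
  simp only [rot_P]
  congr 1 <;> ring

/-- the three exceptional lines of sector 0 -/
def N0 : Set Plane :=
  {z | 1 * z 0 + (-5 / √3) * z 1 = 0} ∪ {z | 1 * z 0 + 0 * z 1 = 1} ∪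
    {z | 1 * z 0 + (-3 / √3) * z 1 = 2}

lemma not_mem_N0 {x y : ℝ} (h : P x y ∉ N0) : x - 5 * y ≠ 0 ∧ x ≠ 1 ∧ x - 3 * y ≠ 2 := by
  have hs := s3pos
  refine ⟨fun hc => h ?_, fun hc => h ?_, fun hc => h ?_⟩
  · left; left
    show 1 * (P x y) 0 + (-5 / √3) * (P x y) 1 = 0
    rw [P_zero, P_one, ← hc]; field_simp; ring
  · left; right
    show 1 * (P x y) 0 + 0 * (P x y) 1 = 1
    rw [P_zero, P_one, hc]; ring
  · right
    show 1 * (P x y) 0 + (-3 / √3) * (P x y) 1 = 2
    rw [P_zero, P_one, ← hc]; field_simp; ring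

lemma lit_of_not_mem {q : Plane} (h0 : q ∉ N0) (h1 : rot q ∉ N0) (h2 : rot (rot q) ∉ N0)
    (h3 : rot (rot (rot q)) ∉ N0) (h4 : rot (rot (rot (rot q))) ∉ N0)
    (h5 : rot (rot (rot (rot (rot q)))) ∉ N0) : Lit q := by
  obtain ⟨x, y, rfl⟩ : ∃ x y, q = P x y := ⟨_, _, eq_P q⟩
  have e1 : rot (P x y) = P ((x - 3 * y) / 2) ((x + y) / 2) := rot_P x y
  have e2 : rot (rot (P x y)) = P ((-x - 3 * y) / 2) ((x - y) / 2) := by
    rw [rot_P, rot_P]; congr 1 <;> ring
  have e3 : rot (rot (rot (P x y))) = P (-x) (-y) := by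
    rw [e2, rot_P]; congr 1 <;> ring
  have e4 : rot (rot (rot (rot (P x y)))) = P (-(x - 3 * y) / 2) (-(x + y) / 2) := by
    rw [e3, rot_P]; congr 1 <;> ring
  have e5 : rot (rot (rot (rot (rot (P x y))))) = P (-(-x - 3 * y) / 2) (-(x - y) / 2) := by
    rw [e4, rot_P]; congr 1 <;> ring
  have r := rot_six (P x y)
  rw [e1] at h1
  rw [e2] at h2
  rw [e3] at h3
  rw [e4] at h4
  rw [e5] at h5
  obtain ⟨a0, b0, c0⟩ := not_mem_N0 h0
  obtain ⟨a1, b1, c1⟩ := not_mem_N0 h1
  obtain ⟨a2, b2, c2⟩ := not_mem_N0 h2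
  obtain ⟨a3, b3, c3⟩ := not_mem_N0 h3
  obtain ⟨a4, b4, c4⟩ := not_mem_N0 h4
  obtain ⟨a5, b5, c5⟩ := not_mem_N0 h5
  have k0 : 5 * y - x ≠ 0 := fun hc => a0 (by linarith)
  have k1 : x + 2 * y ≠ 0 := fun hc => a1 (by linarith)
  have k2 : 3 * x - y ≠ 0 := fun hc => a2 (by linarith)
  rcases lt_or_gt_of_ne k0 with g0 | g0 <;> rcases lt_or_gt_of_ne k1 with g1 | g1 <;>
    rcases lt_or_gt_of_ne k2 with g2 | g2
  · -- (-,-,-): j = 3
    have := lit_sector (x := -x) (y := -y) (by linarith) (by linarith) b3 c3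
    rw [← e3] at this
    rw [← r]
    exact Lit_rot (Lit_rot (Lit_rot this))
  · -- (-,-,+): j = 2
    have := lit_sector (x := (-x - 3 * y) / 2) (y := (x - y) / 2) (by linarith) (by linarith) b2 c2
    rw [← e2] at this
    rw [← r]
    exact Lit_rot (Lit_rot (Lit_rot (Lit_rot this)))
  · -- (-,+,-): j = 1
    have := lit_sector (x := (x - 3 * y) / 2) (y := (x + y) / 2) (by linarith) (by linarith) b1 c1
    rw [← e1] at this
    rw [← r]
    exact Lit_rot (Lit_rot (Lit_rot (Lit_rot (Lit_rot this))))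
  · -- (-,+,+): j = 1
    have := lit_sector (x := (x - 3 * y) / 2) (y := (x + y) / 2) (by linarith) (by linarith) b1 c1
    rw [← e1] at this
    rw [← r]
    exact Lit_rot (Lit_rot (Lit_rot (Lit_rot (Lit_rot this))))
  · -- (+,-,-): j = 4
    have := lit_sector (x := -(x - 3 * y) / 2) (y := -(x + y) / 2) (by linarith) (by linarith)
      b4 c4
    rw [← e4] at this
    rw [← r]
    exact Lit_rot (Lit_rot this)
  · -- (+,-,+): j = 4
    have := lit_sector (x := -(x - 3 * y) / 2) (y := -(x + y) / 2) (by linarith) (by linarith)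
      b4 c4
    rw [← e4] at this
    rw [← r]
    exact Lit_rot (Lit_rot this)
  · -- (+,+,-): j = 5
    have := lit_sector (x := -(-x - 3 * y) / 2) (y := -(x - y) / 2) (by linarith) (by linarith)
      b5 c5
    rw [← e5] at this
    rw [← r]
    exact Lit_rot this
  · -- (+,+,+): j = 0
    exact lit_sector (by linarith) (by linarith) b0 c0

/-! ### Null sets -/

lemma null_line (c1 c2 c : ℝ) (h : c1 ≠ 0) :
    volume {z : Plane | c1 * z 0 + c2 * z 1 = c} = 0 := by
  let S : AffineSubspace ℝ Plane :=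
    { carrier := {z : Plane | c1 * z 0 + c2 * z 1 = c}
      smul_vsub_vadd_mem' := by
        intro k p q r hp hq hr
        have hp' : c1 * p 0 + c2 * p 1 = c := hp
        have hq' : c1 * q 0 + c2 * q 1 = c := hq
        have hr' : c1 * r 0 + c2 * r 1 = c := hr
        show c1 * ((k • (p -ᵥ q) +ᵥ r : Plane) 0) + c2 * ((k • (p -ᵥ q) +ᵥ r : Plane) 1) = c
        simp only [vsub_eq_sub, vadd_eq_add, PiLp.add_apply, PiLp.smul_apply, PiLp.sub_apply,
          smul_eq_mul]
        linear_combination k * hp' - k * hq' + hr' }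
  have hS : S ≠ ⊤ := by
    intro hS
    have h1 : (!₂[(c + 1) / c1, 0] : Plane) ∈ S := by rw [hS]; exact AffineSubspace.mem_top _ _ _
    have h2 : c1 * ((c + 1) / c1) + c2 * 0 = c := h1
    field_simp at h2
    linarith
  exact Measure.addHaar_affineSubspace volume S hS

lemma null_N0 : volume N0 = 0 :=
  measure_union_null (measure_union_null (null_line _ _ _ one_ne_zero)
    (null_line _ _ _ one_ne_zero)) (null_line _ _ _ one_ne_zero)

lemma null_rot {N : Set Plane} (h : volume N = 0) : volume (rot ⁻¹' N) = 0 :=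
  rot.measurePreserving.quasiMeasurePreserving.preimage_null h

lemma null_not_lit : volume {q | ¬ Lit q} = 0 := by
  have h0 := null_N0
  have h1 := null_rot h0
  have h2 := null_rot h1
  have h3 := null_rot h2
  have h4 := null_rot h3
  have h5 := null_rot h4
  refine measure_mono_null ?_ (measure_union_null (measure_union_null (measure_union_null
    (measure_union_null (measure_union_null h0 h1) h2) h3) h4) h5)
  intro q hq
  by_contra hc
  simp only [Set.mem_union, not_or, Set.mem_preimage] at hc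
  obtain ⟨⟨⟨⟨⟨k0, k1⟩, k2⟩, k3⟩, k4⟩, k5⟩ := hc
  exact hq (lit_of_not_mem k0 k1 k2 k3 k4 k5)

/-! ### The configuration -/

lemma mem_segment_P {a b c d : ℝ} {z : Plane} (h : z ∈ segment ℝ (P a b) (P c d)) :
    ∃ l : ℝ, 0 ≤ l ∧ l ≤ 1 ∧ z = P (a + l * (c - a)) (b + l * (d - b)) := by
  obtain ⟨k, l, hk, hl, hkl, rfl⟩ := h
  refine ⟨l, hl, by linarith, ?_⟩
  rw [P_smul, P_smul, P_add]
  have : k = 1 - l := by linarith
  subst this
  congr 1 <;> ring

lemma base_subset (j : Fin 6) : segment ℝ (A j) (B j) ⊆ HL := by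
  intro z hz
  fin_cases j
  all_goals
    obtain ⟨l, h0, h1, rfl⟩ := mem_segment_P hz
    rw [P_mem_HL]
  · left; constructor <;> linarith
  · right; left; constructor <;> linarith
  · right; right; left; constructor <;> linarith
  · right; right; right; left; constructor <;> linarith
  · right; right; right; right; left; constructor <;> linarith
  · right; right; right; right; right; constructor <;> linarith

lemma base_disj (i j : Fin 6) (h : i ≠ j) :
    Disjoint (segment ℝ (A i) (B i)) (segment ℝ (A j) (B j)) := by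
  rw [Set.disjoint_left]
  intro z hz hz'
  fin_cases i <;> fin_cases j <;> first
    | exact absurd rfl h
    | (obtain ⟨l, h0, h1, rfl⟩ := mem_segment_P hz
       obtain ⟨m, k0, k1, hh⟩ := mem_segment_P hz'
       obtain ⟨e1, e2⟩ := P_inj hh
       linarith)

lemma base_extra_disj (i : Fin 6) (r : ℝ) (hr : 6 ≤ r) :
    Disjoint (segment ℝ (A i) (B i)) (segment ℝ (P 1 r) (P 1 (r + 1/2))) := by
  rw [Set.disjoint_left]
  intro z hz hz'
  fin_cases i
  all_goals
    obtain ⟨l, h0, h1, rfl⟩ := mem_segment_P hz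
    obtain ⟨m, k0, k1, hh⟩ := mem_segment_P hz'
    obtain ⟨e1, e2⟩ := P_inj hh
    linarith

lemma extra_disj (r s : ℝ) (h : r + 1 ≤ s) :
    Disjoint (segment ℝ (P 1 r) (P 1 (r + 1/2))) (segment ℝ (P 1 s) (P 1 (s + 1/2))) := by
  rw [Set.disjoint_left]
  intro z hz hz'
  obtain ⟨l, h0, h1, rfl⟩ := mem_segment_P hz
  obtain ⟨m, k0, k1, hh⟩ := mem_segment_P hz'
  obtain ⟨e1, e2⟩ := P_inj hh
  linarith

lemma base_ne (j : Fin 6) : A j ≠ B j := by
  intro h
  fin_cases j <;> (have h2 := P_inj h; norm_num at h2)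

/-- inner endpoints of the `n`-mirror configuration -/
def a' (n : ℕ) (i : Fin n) : Plane := if h : (i : ℕ) < 6 then A ⟨i, h⟩ else P 1 (i : ℕ)

/-- outer endpoints of the `n`-mirror configuration -/
def b' (n : ℕ) (i : Fin n) : Plane := if h : (i : ℕ) < 6 then B ⟨i, h⟩ else P 1 ((i : ℕ) + 1/2)

lemma cases' (n : ℕ) (i : Fin n) :
    (∃ h : (i : ℕ) < 6, a' n i = A ⟨i, h⟩ ∧ b' n i = B ⟨i, h⟩) ∨
    (6 ≤ (i : ℕ) ∧ a' n i = P 1 (i : ℕ) ∧ b' n i = P 1 ((i : ℕ) + 1/2)) := by
  by_cases h : (i : ℕ) < 6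
  · left; exact ⟨h, by simp [a', h], by simp [b', h]⟩
  · right; exact ⟨by omega, by simp [a', h], by simp [b', h]⟩

/-- The configuration of `n` mirrors: the six base mirrors, and `n - 6` further mirrors on the
line carrying the base mirror number 0. -/
def Mn (n : ℕ) : MirrorConfig n where
  a := a' n
  b := b' n
  pos i := by
    rcases cases' n i with ⟨h, h1, h2⟩ | ⟨h, h1, h2⟩
    · rw [h1, h2]; exact base_ne _
    · rw [h1, h2]; intro hc
      have := (P_inj hc).2
      linarith
  disj i j hij := by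
    have hij' : (i : ℕ) ≠ (j : ℕ) := fun h => hij (Fin.ext h)
    rcases cases' n i with ⟨h, h1, h2⟩ | ⟨h, h1, h2⟩ <;>
      rcases cases' n j with ⟨k, k1, k2⟩ | ⟨k, k1, k2⟩ <;> rw [h1, h2, k1, k2]
    · exact base_disj _ _ (fun hc => hij' (by simpa using hc))
    · exact base_extra_disj _ _ (by exact_mod_cast k)
    · exact (base_extra_disj _ _ (by exact_mod_cast h)).symm
    · rcases lt_or_gt_of_ne hij' with h3 | h3
      · exact extra_disj _ _ (by exact_mod_cast h3)
      · exact (extra_disj _ _ (by exact_mod_cast h3)).symm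

lemma Mn_mirrors (n : ℕ) : (Mn n).mirrors ⊆ HL := by
  intro z hz
  obtain ⟨i, hi⟩ := Set.mem_iUnion.1 hz
  change z ∈ segment ℝ (a' n i) (b' n i) at hi
  rcases cases' n i with ⟨h, h1, h2⟩ | ⟨h, h1, h2⟩
  · rw [h1, h2] at hi
    exact base_subset _ hi
  · rw [h1, h2] at hi
    obtain ⟨l, h0, h1, rfl⟩ := mem_segment_P hi
    rw [P_mem_HL]
    left
    have h6 : (6 : ℝ) ≤ ((i : ℕ) : ℝ) := by exact_mod_cast h
    constructor <;> linarith

lemma illuminated_of_lit {n : ℕ} (M : MirrorConfig n) (hM : M.mirrors ⊆ HL)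
    (hb : ∀ j : Fin 6, ∃ i : Fin n, M.a i = A j ∧ M.b i = B j) {q : Plane} (h : Lit q) :
    Illuminated M 0 q := by
  rcases h with ⟨h0, h⟩ | ⟨j, Y, t, hY, hY0, ht, h1, h2, h3⟩
  · refine ⟨0, q, 1, LightRay.emit q h0, zero_le_one, ?_, by simp⟩
    intro s hs hs' hm
    rw [zero_add] at hm
    exact h s hs hs' (hM hm)
  · obtain ⟨i, hi1, hi2⟩ := hb j
    have hr := LightRay.reflect (M := M) (p := 0) 0 Y i 1 (LightRay.emit Y hY0) one_pos
      (fun s hs hs' hm => by
        rw [zero_add] at hm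
        exact h1 s hs hs' (hM hm))
      (by rw [zero_add, one_smul, hi1, hi2]; exact hY)
    rw [zero_add, one_smul, hi1, hi2] at hr
    refine ⟨Y, _, t, hr, ht, ?_, h3⟩
    intro s hs hs' hm
    exact h2 s hs hs' (hM hm)

lemma zero_mem_line {a b c d : ℝ} (h : (0 : Plane) ∈ affineSpan ℝ {P a b, P c d}) :
    ∃ r : ℝ, r * (c - a) = -a ∧ r * (d - b) = -b := by
  have h' : (-(P a b)) +ᵥ P a b ∈ affineSpan ℝ {P a b, P c d} := by simpa using h
  obtain ⟨r, hr⟩ := vadd_left_mem_affineSpan_pair.1 h'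
  rw [vsub_eq_sub, P_sub, P_smul, P_neg] at hr
  exact ⟨r, P_inj hr⟩

lemma base_noncol (j : Fin 6) : (0 : Plane) ∉ affineSpan ℝ {A j, B j} := by
  intro h
  fin_cases j
  all_goals
    obtain ⟨r, e1, e2⟩ := zero_mem_line h
    linarith

/-- **Main result.** For every `n ≥ 6` there are `n` pairwise disjoint two-sided segment mirrors
and a light source `p` not collinear with any of them such that the set of points of the plane
that are not illuminated from `p` has Lebesgue measure zero. -/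
theorem result : ∀ n : ℕ, 6 ≤ n → ∃ (M : MirrorConfig n) (p : Plane),
    (∀ i, p ∉ affineSpan ℝ {M.a i, M.b i}) ∧ volume {q | ¬ Illuminated M p q} = 0 := by
  intro n hn
  refine ⟨Mn n, 0, ?_, ?_⟩
  · intro i
    change (0 : Plane) ∉ affineSpan ℝ {a' n i, b' n i}
    rcases cases' n i with ⟨h, h1, h2⟩ | ⟨h, h1, h2⟩
    · rw [h1, h2]; exact base_noncol _
    · rw [h1, h2]
      intro hc
      obtain ⟨r, e1, e2⟩ := zero_mem_line hc
      linarith
  · refine measure_mono_null ?_ null_not_lit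
    intro q hq hl
    apply hq
    refine illuminated_of_lit (Mn n) (Mn_mirrors n) ?_ hl
    intro j
    refine ⟨⟨j, lt_of_lt_of_le j.2 hn⟩, ?_, ?_⟩
    · show a' n _ = _
      simp [a']
    · show b' n _ = _
      simp [b']

end

end Pool.Agent.Results.MP_74d6fb_co.SixMirrors
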